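import Pool.Agent.H28.MCB.Targets

/-!
# MCB, row FAM: the Cauchy-Schwarz inequality for a family of intervals
-/

set_option autoImplicit false

open Pool.Agent.H28.MCL Pool.Agent.H28.MCB

namespace Pool.Agent.H99.MCB

theorem fam_iv {K N : ℕ} {I : Finset (ℕ × ℕ)} (hI : Fam K N I) {J : ℕ × ℕ} (hJ : J ∈ I)
    (q n₀ : ℕ) :
    iv J.2 (J.2 - J.1) q n₀ = (Finset.Ioc J.1 J.2).filter (fun n => n ≡ n₀ [MOD q]) := by
  have h := (hI.1 J hJ).1
  unfold iv
  have : J.2 - (J.2 - J.1) = J.1 := by omega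
  rw [this]

theorem fam_sum {K N : ℕ} {I : Finset (ℕ × ℕ)} (hI : Fam K N I) (q n₀ : ℕ) (b : ℕ → ℝ)
    (hb : ∀ n, 0 ≤ b n) :
    ∑ J ∈ I, ∑ n ∈ iv J.2 (J.2 - J.1) q n₀, b n ≤ ∑ n ∈ iv N N q n₀, b n := by
  classical
  have h1 : ∑ J ∈ I, ∑ n ∈ iv J.2 (J.2 - J.1) q n₀, b n =
      ∑ n ∈ I.biUnion (fun J => iv J.2 (J.2 - J.1) q n₀), b n := by
    rw [Finset.sum_biUnion]
    intro J hJ J' hJ' hne
    have hd := hI.2 hJ hJ' hne
    have e1 := fam_iv hI hJ q n₀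
    have e2 := fam_iv hI hJ' q n₀
    show Disjoint (iv J.2 (J.2 - J.1) q n₀) (iv J'.2 (J'.2 - J'.1) q n₀)
    rw [e1, e2]
    exact Finset.disjoint_filter_filter hd
  rw [h1]
  apply Finset.sum_le_sum_of_subset_of_nonneg
  · intro n hn
    obtain ⟨J, hJ, hn⟩ := Finset.mem_biUnion.mp hn
    rw [fam_iv hI hJ q n₀] at hn
    have h2 := Finset.mem_filter.mp hn
    have h3 := Finset.mem_Ioc.mp h2.1
    have h4 := (hI.1 J hJ).2
    unfold iv
    refine Finset.mem_filter.mpr ⟨Finset.mem_Ioc.mpr ⟨by omega, by omega⟩, h2.2⟩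
  · intro n _ _
    exact hb n

theorem fam : T_FAM := by
  intro m q W n₀ τ A F w V C N T I b hq hV hC hb hI hJ
  have hq' : (0 : ℝ) < q := by exact_mod_cast hq
  have hH : ∀ J ∈ I, (1 : ℝ) ≤ ((J.2 - J.1 : ℕ) : ℝ) := by
    intro J hJI
    have := (hI.1 J hJI).1
    have h1 : 1 ≤ J.2 - J.1 := by omega
    exact_mod_cast h1
  set P : ℝ := ∏ l, ((A l).card * ((T : ℝ) / W)) with hP
  have hlen : ((len I : ℕ) : ℝ) = ∑ J ∈ I, ((J.2 - J.1 : ℕ) : ℝ) := by
    unfold len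
    push_cast
    rfl
  rcases I.eq_empty_or_nonempty with he | hne
  · subst he
    simp [lhI, mm, len]
  · have hL : (0 : ℝ) < (len I : ℕ) := by
      rw [hlen]
      apply Finset.sum_pos
      · intro J hJI
        linarith [hH J hJI]
      · exact hne
    have key := Finset.sum_sq_le_sum_mul_sum_of_sq_le_mul I
      (r := fun J => lhs q n₀ τ F w J.2 (J.2 - J.1) T)
      (f := fun J => ((J.2 - J.1 : ℕ) : ℝ))
      (g := fun J => (P / q) ^ 2 * (V * ((J.2 - J.1 : ℕ) : ℝ) +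
        C * q * ∑ n ∈ iv J.2 (J.2 - J.1) q n₀, b n))
      (by
        intro J hJI
        linarith [hH J hJI])
      (by
        intro J hJI
        have h1 := hH J hJI
        have h2 : 0 ≤ ∑ n ∈ iv J.2 (J.2 - J.1) q n₀, b n := Finset.sum_nonneg (fun n _ => hb n)
        positivity)
      (by
        intro J hJI
        have h1 := hH J hJI
        have h0 : ((J.2 - J.1 : ℕ) : ℝ) ≠ 0 := by linarith
        refine (hJ J hJI).trans (le_of_eq ?_)
        show (((J.2 - J.1 : ℕ) : ℝ) / q * P) ^ 2 * _ = _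
        field_simp)
    have hs := fam_sum hI q n₀ b hb
    have e1 : ∑ J ∈ I, (P / q) ^ 2 * (V * ((J.2 - J.1 : ℕ) : ℝ) +
        C * q * ∑ n ∈ iv J.2 (J.2 - J.1) q n₀, b n) =
        (P / q) ^ 2 * (V * (len I : ℕ) +
          C * q * ∑ J ∈ I, ∑ n ∈ iv J.2 (J.2 - J.1) q n₀, b n) := by
      rw [hlen, ← Finset.mul_sum, Finset.sum_add_distrib, ← Finset.mul_sum, ← Finset.mul_sum]
    have e2 : (mm q W A (len I) T) ^ 2 *
        (V + C * ((q : ℝ) / (len I : ℝ) * ∑ n ∈ iv N N q n₀, b n)) =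
        (len I : ℕ) * ((P / q) ^ 2 * (V * (len I : ℕ) + C * q * ∑ n ∈ iv N N q n₀, b n)) := by
      show (((len I : ℕ) : ℝ) / q * P) ^ 2 * _ = _
      have h0 : ((len I : ℕ) : ℝ) ≠ 0 := hL.ne'
      field_simp
    rw [e2]
    unfold lhI
    refine key.trans ?_
    rw [← hlen, e1]
    have h3 : C * q * ∑ J ∈ I, ∑ n ∈ iv J.2 (J.2 - J.1) q n₀, b n ≤
        C * q * ∑ n ∈ iv N N q n₀, b n := mul_le_mul_of_nonneg_left hs (by positivity)
    have h4 := mul_le_mul_of_nonneg_left (add_le_add_right h3 (V * (len I : ℕ)))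
      (sq_nonneg (P / q))
    exact mul_le_mul_of_nonneg_left h4 hL.le

end Pool.Agent.H99.MCB
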